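import Pool.Agent.NTS.StmtsE
import Pool.Agent.Helper37_PFS.Main
import Pool.Agent.Helper83_PFJ.MXE

/-!
# NTS squad, row FAE: Theorem E
-/

set_option autoImplicit false

open Matrix Filter Topology

namespace Pool.Agent.NTS.H63

open Pool.Agent.PFS Pool.Agent.PFJ Pool.Agent.PFS.H37

/-- FAE -/
theorem fae (exv : ExvStmt) (dse : DseStmt) (pre : PreStmt) : FaeStmt := by
  intro n C Γ h k hk hmax T hT htriv v hTv
  have hv := hT.pes v hTv
  have hind := Pool.Agent.PFS.H60.lin n C h.toPCone _ v hv.1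
  have hF := (Pool.Agent.PFS.H32.frz n C h.toPCone _ v hind).mp hv.1
  refine ⟨hind, hF.1, hF.2, ?_, ?_⟩
  · intro m w hwind hw1 hw2 hsub
    have hwP : PES C w := (Pool.Agent.PFS.H32.frz n C h.toPCone _ w hwind).mpr ⟨hw1, hw2⟩
    exact Pool.Agent.PFJ.H83.mxe n C h.toPCone (k + 1) (by omega) v hv.1
      (fun i => exv n C Γ h (k + 1) (by omega) hmax v hv i) (m + 1) w hwP hsub
  · obtain ⟨χ, hχX, hχind⟩ := Pool.Agent.PFS.H81.chi k
      {χ : Fin (k + 1) → ℝ | ∃ γ ∈ Γ, ∀ i, act γ (v i) = Real.exp (χ i) • v i} (by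
        intro ℓ hℓ hsum
        obtain ⟨γ, hγ, χ, h1, h2⟩ := pre n C Γ h (k + 1) (by omega) T hT
          (fun x W hx hW hlim => dse n C Γ h (k + 1) (by omega) hmax T hT htriv x W hx hW hlim)
          v hTv ℓ hℓ hsum
        exact ⟨χ, ⟨γ, hγ, h1⟩, h2⟩)
    choose γ hγ hγχ using hχX
    exact Pool.Agent.PFS.H37.abeF n C Γ h k v hv γ χ hγ hγχ hχind

end Pool.Agent.NTS.H63
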